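import Pool.Agent.Helper28.OHS.Goals2
import Pool.Agent.Helper81.Sus2.PRM

/-!
# Project OHS, packet OHS-PRM: the parameters are computed in linear space and admissible
-/

set_option exponentiation.threshold 50000

namespace Pool.Agent.Helper70.OHS

open Pool.Agent.Helper65.LinSpace Pool.Agent.Helper78.Mpc Pool.Agent.Helper28.Ram Finset
open Pool.Agent.Helper28.OHS
open Pool.Agent.Helper65.OH (Prm kap dm sd2 sd2_spec LS_sd2)
open Pool.Agent.Helper54.OH (PF LS_CR two_pow_le_CR gR_sq_le)
open Pool.Agent.Helper81.Sus2 (LSP)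
open Pool.Agent.Helper81.Tok2 (gH)
open Pool.Agent.Helper28.Few (gH_pos gH_le LS_gH)
open Pool.Agent.Helper28.Long (ZL ZL_le)
open Pool.Agent.Helper81.Sus2H88 (le01_eq_one le01_le LS_ZL)

theorem gd_cases (n D S b Z h : ℕ) : gd n D S b Z h = 0 ∨ gd n D S b Z h = 1 := by
  have h2 : gd n D S b Z h ≤ 1 := by
    unfold gd
    exact Nat.mul_le_mul (le01_le _ _) (Nat.mul_le_mul (le01_le _ _) (le01_le _ _))
  omega

theorem gd_one {n D S b Z h : ℕ} (hg : gd n D S b Z h = 1) :
    S + (b + 1) * D + (h + kap n) ≤ gH n h ∧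
    (S + (b + 1) * D + (h + kap n) + 1) * h ≤ gH n h ∧ Z ≤ ZL n := by
  have h0 : gd n D S b Z h ≠ 0 := by omega
  unfold gd at h0
  have h1 := left_ne_zero_of_mul h0
  have h2 := right_ne_zero_of_mul h0
  have h3 := left_ne_zero_of_mul h2
  have h4 := right_ne_zero_of_mul h2
  exact ⟨le01_eq_one h1, le01_eq_one h3, le01_eq_one h4⟩

/-- The reduced bounds; `G`, `s`, `b`, `Z`, `h`, `g` are the numbers of the parameters. -/
structure Red (n D G s b Z h g : ℕ) : Prop where
  c : G = 0 ∨ G = 1
  hD : D ≤ ll n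
  hg : g = gH n (G * h)
  v : G * (s + (b + 1) * D + (h + (4 * ll n + 5))) + 1 ≤ g
  w : (G * (s + (b + 1) * D + (h + (4 * ll n + 5))) + 2) * (G * h) ≤ g
  z : G * Z ≤ ZL n

theorem red (u x T : ℕ) : Red (Nat.log 2 x) (DD u x) (gg u x T) (dig (Nat.log 2 x + 2) T 0)
    (dig (Nat.log 2 x + 2) T 1) (dig (Nat.log 2 x + 2) T 2) (dig (Nat.log 2 x + 2) T 3)
    (gb u x T) := by
  have hDD : DD u x ≤ ll (Nat.log 2 x) := min_le_right _ _
  rcases gd_cases (Nat.log 2 x) (DD u x) (dig (Nat.log 2 x + 2) T 0)
    (dig (Nat.log 2 x + 2) T 1) (dig (Nat.log 2 x + 2) T 2) (dig (Nat.log 2 x + 2) T 3) with h | h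
  · have h' : gg u x T = 0 := h
    refine ⟨Or.inl h', hDD, rfl, ?_, ?_, ?_⟩
    · rw [h', zero_mul, zero_add]
      exact gH_pos _ _
    · rw [h', zero_mul, zero_mul, mul_zero]
      exact Nat.zero_le _
    · rw [h', zero_mul]
      exact Nat.zero_le _
  · have h' : gg u x T = 1 := h
    obtain ⟨h1, h2, h3⟩ := gd_one h
    have hb : gb u x T = gH (Nat.log 2 x) (dig (Nat.log 2 x + 2) T 3) := by
      unfold gb hh
      rw [h', one_mul]
    unfold kap at h1 h2
    refine ⟨Or.inr h', hDD, rfl, ?_, ?_, ?_⟩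
    · rw [h', hb, one_mul]
      omega
    · rw [h', hb, one_mul, one_mul]
      refine le_trans (le_of_eq ?_) h2
      ring
    · rw [h', one_mul]
      exact h3

namespace Red

variable {n D G s b Z h g : ℕ} (R : Red n D G s b Z h g)

include R

theorem g_le : g ≤ gR n := by
  rw [R.hg]
  exact gH_le _ _

theorem g_le' : g ≤ n + 1 := R.g_le.trans (Pool.Agent.Helper69.Ram.gR_le n)

theorem gg_le : g * g ≤ 4 * (n + 1) :=
  (Nat.mul_le_mul R.g_le R.g_le).trans (gR_sq_le n)

theorem S_le : G * s + 1 ≤ g := by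
  rcases R.c with h0 | h0
  · have := R.v
    rw [h0] at this ⊢
    omega
  · have := R.v
    rw [h0] at this ⊢
    omega

theorem κD_le : G * s + 1 + (G * b + 1) * D ≤ 3 * (n + 1) := by
  have h1 := R.v
  have h2 := R.g_le'
  have h3 := R.hD
  have h4 := ll_le n
  rcases R.c with h0 | h0
  · rw [h0] at h1 ⊢
    simp only [zero_mul, zero_add, one_mul]
    omega
  · rw [h0] at h1 ⊢
    simp only [one_mul] at h1 ⊢
    omega

theorem h_le : G * h ≤ n + 1 := by
  have h1 := R.v
  have h2 := R.g_le'
  rcases R.c with h3 | h3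
  · rw [h3, zero_mul]
    exact Nat.zero_le _
  · rw [h3] at h1 ⊢
    simp only [one_mul] at h1 ⊢
    omega

end Red

theorem CR_le_CS (c x : ℕ) : CR x ≤ CS c x := by
  unfold CR CS
  exact Nat.pow_le_pow_right (by omega) (by omega)

theorem two_pow_le_CS (c : ℕ) {x t : ℕ} (h : t ≤ 100 * (Nat.log 2 x + 1)) : 2 ^ t ≤ CS c x :=
  (two_pow_le_CR h).trans (CR_le_CS c x)

theorem kb_le (u x T : ℕ) : gg u x T * dig (Nat.log 2 x + 2) T 1 + 1 ≤ Nat.log 2 x + 2 := by
  have h1 : dig (Nat.log 2 x + 2) T 1 < Nat.log 2 x + 2 := Nat.mod_lt _ (by omega)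
  rcases (red u x T).c with h | h
  · rw [h, zero_mul]
    omega
  · rw [h, one_mul]
    omega

section

variable {α : Type} [Ctx α]

theorem LS_cfi {u : α → ℕ} (hu : LS u) (i : ℕ) : LS (fun z => cfi (u z) i) := by
  unfold cfi
  fun_prop

theorem LS_DD {u x : α → ℕ} (hu : LS u) (hx : LS x) : LS (fun z => DD (u z) (x z)) :=
  LS.min (LS_cfi hu 0) (LS.ll (LS.log2 hx))

theorem LS_dg {x T : α → ℕ} (hx : LS x) (hT : LS T) (i : ℕ) :
    LS (fun z => dig (Nat.log 2 (x z) + 2) (T z) i) :=
  LS.dig (LS.add (LS.log2 hx) (LS.const 2)) hT (LS.const i)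

theorem LS_gg {u x T : α → ℕ} (hu : LS u) (hx : LS x) (hT : LS T) :
    LS (fun z => gg (u z) (x z) (T z)) := by
  have hn : LS (fun z => Nat.log 2 (x z)) := LS.log2 hx
  have hD := LS_DD hu hx
  have hd := LS_dg hx hT
  have hgH : LS (fun z => gH (Nat.log 2 (x z)) (dig (Nat.log 2 (x z) + 2) (T z) 3)) :=
    LS_gH hn (hd 3)
  have hk : LS (fun z => kap (Nat.log 2 (x z))) := by
    unfold kap
    fun_prop
  have hs : LS (fun z => dig (Nat.log 2 (x z) + 2) (T z) 0 +
      (dig (Nat.log 2 (x z) + 2) (T z) 1 + 1) * DD (u z) (x z) +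
      (dig (Nat.log 2 (x z) + 2) (T z) 3 + kap (Nat.log 2 (x z)))) :=
    LS.add (LS.add (hd 0) (LS.mul (LS.add (hd 1) (LS.const 1)) hD)) (LS.add (hd 3) hk)
  unfold gg gT gd
  exact LS.mul (LS.le01 hs hgH) (LS.mul (LS.le01 (LS.mul (LS.add hs (LS.const 1)) (hd 3)) hgH)
    (LS.le01 (hd 2) (LS_ZL hn)))

theorem LS_hh {u x T : α → ℕ} (hu : LS u) (hx : LS x) (hT : LS T) :
    LS (fun z => hh (u z) (x z) (T z)) := LS.mul (LS_gg hu hx hT) (LS_dg hx hT 3)

theorem LS_gb {u x T : α → ℕ} (hu : LS u) (hx : LS x) (hT : LS T) :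
    LS (fun z => gb (u z) (x z) (T z)) := LS_gH (LS.log2 hx) (LS_hh hu hx hT)

theorem LS_th {u x T : α → ℕ} (hu : LS u) (hx : LS x) (hT : LS T) :
    LS (fun z => 2 ^ th (u z) (x z) (T z)) := by
  have hl : LS (fun z => ll (Nat.log 2 (x z))) := LS.ll (LS.log2 hx)
  refine LS.pow_of_le (f := fun _ => 2) (LS.const 2) (LS.add (LS_hh hu hx hT)
    (LS.add (LS.mul (LS.const 4) hl) (LS.const 5))) (LS_CR hx) fun z => ?_
  apply two_pow_le_CR
  have h1 := (red (u z) (x z) (T z)).h_le
  have h2 := ll_le (Nat.log 2 (x z))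
  have h3 : hh (u z) (x z) (T z) = gg (u z) (x z) (T z) *
    dig (Nat.log 2 (x z) + 2) (T z) 3 := rfl
  unfold th
  rw [h3]
  omega

end

/-- Packet OHS-PRM. -/
theorem prm : PRM_stmt := by
  refine ⟨?_, ?_, ?_⟩
  · intro α _ c u x y T hu hx hy hT
    have hn : LS (fun z => Nat.log 2 (x z)) := LS.log2 hx
    have hl : LS (fun z => ll (Nat.log 2 (x z))) := LS.ll hn
    have hG := LS_gg hu hx hT
    have hd := LS_dg hx hT
    have hD := LS_DD hu hx
    have hgb := LS_gb hu hx hT
    have hCR : LS (fun z => CR (x z)) := LS_CR hx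
    have hC : LS (fun z => CS c (x z)) := by
      unfold CS
      exact (LS.add hx (LS.const 2)).pow_const (8000 + 41 * c)
    have hβ : LS (fun z => 2 ^ (2 * ll (Nat.log 2 (x z)))) :=
      LS.pow_of_le (f := fun _ => 2) (LS.const 2) (LS.mul (LS.const 2) hl) hCR fun z => by
        apply two_pow_le_CR
        have h1 := ll_le (Nat.log 2 (x z))
        omega
    have hβΛ : ∀ z, (2 ^ (2 * ll (Nat.log 2 (x z)))) ^ LW (Nat.log 2 (x z)) ≤ CS c (x z) :=
      fun z => by
        refine (beta_pow_le (x z)).trans (le_trans ?_ (CR_le_CS c (x z)))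
        unfold CM CR
        exact Nat.pow_le_pow_right (by omega) (by norm_num)
    have hS : LS (fun z => gg (u z) (x z) (T z) * dig (Nat.log 2 (x z) + 2) (T z) 0) :=
      LS.mul hG (hd 0)
    have hκ : LS (fun z => gg (u z) (x z) (T z) * dig (Nat.log 2 (x z) + 2) (T z) 1 + 1) :=
      LS.add (LS.mul hG (hd 1)) (LS.const 1)
    have hsd := fun z => sd2_spec _ _ (DD (u z) (x z)) (red (u z) (x z) (T z)).S_le
    have hgg : ∀ z, 2 ^ (gb (u z) (x z) (T z) * gb (u z) (x z) (T z)) ≤ CS c (x z) := fun z => by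
      apply two_pow_le_CS
      have h1 := (red (u z) (x z) (T z)).gg_le
      omega
    refine ⟨?_, ?_, hG, LS_hh hu hx hT, hgb, LS_th hu hx hT⟩
    · exact
        { eA := LS_cfi hu 1
          eN := LS_cfi hu 2
          eW := LS_cfi hu 3
          st := LS_cfi hu 4
          hΛ := LS.LW hn
          hβ := hβ
          hB := hCR
          x := hx
          y := hy
          S := hS
          κ := hκ
          D := hD
          d := LS_sd2 hgb hS hD
          o := LS.const 0
          Tc := LS.const 0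
          σ := LS.add (LS.add hS (LS.const 1)) (LS.mul hκ hD)
          a := LS.mul hgb hgb
          hC := hC
          b1 := fun z => by
            show 0 < 2 ^ (2 * ll (Nat.log 2 (x z)))
            positivity
          b2 := hβΛ
          b3 := fun z => by
            apply two_pow_le_CS
            have h1 := (red (u z) (x z) (T z)).S_le
            have h2 := (red (u z) (x z) (T z)).g_le'
            show gg (u z) (x z) (T z) * dig (Nat.log 2 (x z) + 2) (T z) 0 + 1 ≤ _
            omega
          b4 := fun z => by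
            apply two_pow_le_CS
            have h1 := kb_le (u z) (x z) (T z)
            show gg (u z) (x z) (T z) * dig (Nat.log 2 (x z) + 2) (T z) 1 + 1 ≤ _
            omega
          b5 := fun z => by
            rw [← pow_mul]
            apply two_pow_le_CS
            have h1 := (red (u z) (x z) (T z)).κD_le
            show (gg (u z) (x z) (T z) * dig (Nat.log 2 (x z) + 2) (T z) 1 + 1) *
              DD (u z) (x z) ≤ _
            omega
          b6 := fun z => (hsd z).1
          b7 := fun z => by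
            have h1 := (hsd z).2
            have h2 := (Nat.le_mul_of_pos_left _ (Nat.succ_pos _)).trans h1
            exact (h2.trans Nat.lt_two_pow_self.le).trans (hgg z)
          b8 := fun z => by
            rw [← pow_mul]
            exact le_trans (Nat.pow_le_pow_right (by norm_num) (hsd z).2) (hgg z)
          b9 := fun z => by
            apply two_pow_le_CS
            have h1 := (red (u z) (x z) (T z)).κD_le
            show gg (u z) (x z) (T z) * dig (Nat.log 2 (x z) + 2) (T z) 0 + 1 +
              (gg (u z) (x z) (T z) * dig (Nat.log 2 (x z) + 2) (T z) 1 + 1) *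
              DD (u z) (x z) ≤ _
            omega
          b10 := hgg }
    · exact
        { eA := LS.const 0
          eN := LS.const 0
          eW := LS.const 0
          eK := LS.const 0
          eG := LS.const 0
          eR := LS.const 0
          eD := LS_cfi hu 5
          eX := LS_cfi hu 6
          ini := LS.const 0
          B0 := LS.const 0
          st := LS.const 0
          Λ := LS.LW hn
          β := hβ
          B := hCR
          x := hx
          y := hy
          S := LS.const 0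
          Z := LS.mul hG (hd 2)
          u := LS.const 0
          V := LS.mul hG (LS.add (LS.add (hd 0) (LS.mul (LS.add (hd 1) (LS.const 1)) hD))
            (LS.add (hd 3) (LS.add (LS.mul (LS.const 4) hl) (LS.const 5))))
          z := LS.mul (LS.const c) hn
          hC := hC
          bβ0 := fun z => by
            show 0 < 2 ^ (2 * ll (Nat.log 2 (x z)))
            positivity
          bβ := hβΛ
          bS := fun z => by
            apply two_pow_le_CS
            show 0 + 2 ≤ _
            omega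
          bZ := fun z => by
            apply two_pow_le_CS
            have h1 := (red (u z) (x z) (T z)).z.trans (ZL_le _)
            show gg (u z) (x z) (T z) * dig (Nat.log 2 (x z) + 2) (T z) 2 + 2 ≤ _
            omega
          bV := fun z => by
            apply two_pow_le_CS
            have h1 := (red (u z) (x z) (T z)).v
            have h2 := (red (u z) (x z) (T z)).g_le'
            show gg (u z) (x z) (T z) * (dig (Nat.log 2 (x z) + 2) (T z) 0 +
              (dig (Nat.log 2 (x z) + 2) (T z) 1 + 1) * DD (u z) (x z) +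
              (dig (Nat.log 2 (x z) + 2) (T z) 3 + (4 * ll (Nat.log 2 (x z)) + 5))) + 2 ≤ _
            omega
          bu := fun z => by
            apply two_pow_le_CS
            show 0 ≤ _
            omega
          bz := fun z => by
            show 2 ^ (c * Nat.log 2 (x z) + 2) ≤ CS c (x z)
            rw [pow_add, mul_comm c, pow_mul]
            have h1 : 2 ^ Nat.log 2 (x z) ≤ x z + 2 := by
              rcases Nat.eq_zero_or_pos (x z) with h | h
              · rw [h]
                simp
              · exact (Nat.pow_log_le_self 2 h.ne').trans (by omega)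
            have h2 : 2 ^ 2 ≤ (x z + 2) ^ 2 := Nat.pow_le_pow_left (by omega) 2
            calc (2 ^ Nat.log 2 (x z)) ^ c * 2 ^ 2 ≤ (x z + 2) ^ c * (x z + 2) ^ 2 :=
                  Nat.mul_le_mul (Nat.pow_le_pow_left h1 c) h2
              _ = (x z + 2) ^ (c + 2) := (pow_add _ _ _).symm
              _ ≤ CS c (x z) := by
                  unfold CS
                  exact Nat.pow_le_pow_right (by omega) (by omega) }
  · intro c u x y T
    apply two_pow_le_CS
    have h1 := (red u x T).κD_le
    have h2 := (red u x T).hD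
    have h3 := ll_le (Nat.log 2 x)
    show (2 * (gg u x T * dig (Nat.log 2 x + 2) T 1 + 1) + 3) * DD u x + 1 ≤ _
    have h4 : (2 * (gg u x T * dig (Nat.log 2 x + 2) T 1 + 1) + 3) * DD u x =
      2 * ((gg u x T * dig (Nat.log 2 x + 2) T 1 + 1) * DD u x) + 3 * DD u x := by ring
    rw [h4]
    omega
  · intro c u x y T
    have R := red u x T
    have hs := sd2_spec _ _ (DD u x) R.S_le
    refine ⟨R.v, R.w, R.g_le, hs.1, hs.2, R.S_le, R.z, ?_⟩
    intro h0
    have h1 : gg u x T = 1 := R.c.resolve_left h0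
    refine ⟨h1, ?_⟩
    show gg u x T * dig (Nat.log 2 x + 2) T 0 + 1 +
      (gg u x T * dig (Nat.log 2 x + 2) T 1 + 1) * DD u x +
      (gg u x T * dig (Nat.log 2 x + 2) T 3 + (4 * ll (Nat.log 2 x) + 5)) =
      gg u x T * (dig (Nat.log 2 x + 2) T 0 +
        (dig (Nat.log 2 x + 2) T 1 + 1) * DD u x +
        (dig (Nat.log 2 x + 2) T 3 + (4 * ll (Nat.log 2 x) + 5))) + 1
    rw [h1]
    ring

end Pool.Agent.Helper70.OHS
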